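import Pool.Agent.H65.CRZ.TN
import Pool.Agent.H96.CV.Basic

/-!
# The moments of `log (M / N(D))` over the squarefree ideals
-/

set_option autoImplicit false

open NumberField NumberField.InfinitePlace MeasureTheory Set

namespace Pool.Agent.H63.CRZ

open Pool.Agent.H28.RC Pool.Agent.H37.CV Pool.Agent.H65.CRZ

/-- the weight -/
noncomputable def gk (M : ℝ) (k : ℕ) (x : ℝ) : ℝ := (k + 1 : ℕ) * Real.log (M / x) ^ k / x

theorem log_div_eq {M x : ℝ} (hM : 0 < M) (hx : 0 < x) :
    Real.log (M / x) = Real.log M - Real.log x := Real.log_div hM.ne' hx.ne'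

theorem gk_cont {M n : ℝ} (hM : 0 < M) (hn : 1 ≤ n) (k : ℕ) :
    ContinuousOn (gk M k) (Icc n M) := by
  unfold gk
  refine ContinuousOn.div (ContinuousOn.mul continuousOn_const (ContinuousOn.pow
    (ContinuousOn.log (ContinuousOn.div continuousOn_const continuousOn_id ?_) ?_) k))
    continuousOn_id ?_
  · intro x hx
    have : 0 < x := by linarith [hx.1]
    exact this.ne'
  · intro x hx
    have : 0 < x := by linarith [hx.1]
    exact (div_pos hM this).ne'
  · intro x hx
    have : 0 < x := by linarith [hx.1]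
    exact this.ne'

theorem gk_nonneg {M x : ℝ} (h1 : 1 ≤ x) (h2 : x ≤ M) (k : ℕ) : 0 ≤ gk M k x := by
  have hx : 0 < x := by linarith
  have h3 : 1 ≤ M / x := by rw [le_div_iff₀ hx]; linarith
  have h4 := Real.log_nonneg h3
  unfold gk
  positivity

theorem der1 {M x : ℝ} (hM : 0 < M) (hx : 0 < x) (k : ℕ) :
    HasDerivAt (fun y : ℝ => -(Real.log (M / y)) ^ (k + 1)) (gk M k x) x := by
  have h1 : HasDerivAt (fun y : ℝ => M / y) (-M / x ^ 2) x := by
    have := (hasDerivAt_const x M).fun_div (hasDerivAt_id' x) hx.ne'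
    simpa using this
  have h2 : HasDerivAt (fun y : ℝ => Real.log (M / y)) ((-M / x ^ 2) / (M / x)) x :=
    h1.log (div_pos hM hx).ne'
  have h3 := (h2.pow (k + 1)).neg
  refine h3.congr_deriv ?_
  unfold gk
  have hM' : M ≠ 0 := hM.ne'
  have hx' : x ≠ 0 := hx.ne'
  simp only [Nat.add_sub_cancel]
  field_simp

theorem int1 {M n : ℝ} (hn : 1 ≤ n) (hnM : n ≤ M) (k : ℕ) :
    ∫ x in Icc n M, gk M k x = Real.log (M / n) ^ (k + 1) := by
  have hM : 0 < M := by linarith
  rw [integral_Icc_eq_integral_Ioc, ← intervalIntegral.integral_of_le hnM,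
    intervalIntegral.integral_eq_sub_of_hasDerivAt (f := fun y : ℝ => -(Real.log (M / y)) ^ (k + 1))]
  · rw [div_self hM.ne', Real.log_one]
    simp
  · intro x hx
    rw [uIcc_of_le hnM] at hx
    exact der1 hM (by linarith [hx.1]) k
  · refine ContinuousOn.intervalIntegrable ?_
    rw [uIcc_of_le hnM]
    exact gk_cont hM hn k

theorem int2 {M : ℝ} (hM1 : 1 ≤ M) (k : ℕ) :
    ∫ x in Icc 1 M, Real.log x * gk M k x = Real.log M ^ (k + 2) / (k + 2) := by
  have hM : 0 < M := by linarith
  have hc : ContinuousOn (fun x : ℝ => Real.log x * gk M k x) (Icc 1 M) := by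
    refine ContinuousOn.mul (ContinuousOn.log continuousOn_id ?_) (gk_cont hM le_rfl k)
    intro x hx
    have : 0 < x := by linarith [hx.1]
    exact this.ne'
  rw [integral_Icc_eq_integral_Ioc, ← intervalIntegral.integral_of_le hM1,
    intervalIntegral.integral_eq_sub_of_hasDerivAt
      (f := fun y : ℝ => -(Real.log y * Real.log (M / y) ^ (k + 1)) -
        Real.log (M / y) ^ (k + 2) / (k + 2))]
  · rw [div_self hM.ne', Real.log_one, div_one]
    simp
  · intro x hx
    rw [uIcc_of_le hM1] at hx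
    have hx0 : 0 < x := by linarith [hx.1]
    have h1 := der1 hM hx0 k
    have h2 := der1 hM hx0 (k + 1)
    have h3 := (Real.hasDerivAt_log hx0.ne').mul h1
    have h4 := h3.add (h2.div_const ((k : ℝ) + 2))
    have h5 : (fun y : ℝ => -(Real.log y * Real.log (M / y) ^ (k + 1)) -
        Real.log (M / y) ^ (k + 2) / (k + 2)) = fun y : ℝ =>
        Real.log y * -(Real.log (M / y)) ^ (k + 1) + -(Real.log (M / y)) ^ (k + 1 + 1) / (k + 2) := by
      funext y
      ring
    rw [h5]
    refine h4.congr_deriv ?_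
    unfold gk
    have hx' : x ≠ 0 := hx0.ne'
    have hk : (k : ℝ) + 2 ≠ 0 := by positivity
    push_cast
    field_simp
    ring
  · refine ContinuousOn.intervalIntegrable ?_
    rw [uIcc_of_le hM1]
    exact hc

open scoped Classical in
theorem GS_eq {K : Type} [Field K] [NumberField K] {M x : ℝ} (hx : x ≤ M) :
    GS np (PM K M) x = ∑ D ∈ DM K M, (if nS np D ≤ x then (fS np D)⁻¹ else 0) := by
  rw [← Finset.sum_filter, GS]
  refine Finset.sum_congr ?_ fun _ _ => rfl
  ext S
  rw [Finset.mem_filter, DM, DS, DS, Finset.mem_filter, Finset.mem_filter]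
  constructor
  · rintro ⟨h1, h2⟩
    exact ⟨⟨h1, h2.trans hx⟩, h2⟩
  · rintro ⟨⟨h1, _⟩, h2⟩
    exact ⟨h1, h2⟩

open scoped Classical in
theorem sum_eq {K : Type} [Field K] [NumberField K] {M : ℝ} (hM : 1 ≤ M) (k : ℕ) :
    Integrable (fun x => GS np (PM K M) x * gk M k x) (volume.restrict (Icc 1 M)) ∧
    ∑ D ∈ DM K M, Real.log (M / nS np D) ^ (k + 1) / fS np D =
      ∫ x in Icc 1 M, GS np (PM K M) x * gk M k x := by
  have hM0 : 0 < M := by linarith
  have hg : IntegrableOn (gk M k) (Icc 1 M) := (gk_cont hM0 le_rfl k).integrableOn_Icc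
  have hi : ∀ D ∈ DM K M, Integrable
      (fun x => (fS np D)⁻¹ * (Ici (nS np D)).indicator (gk M k) x)
      (volume.restrict (Icc 1 M)) := fun D _ =>
    (hg.indicator measurableSet_Ici).const_mul _
  have he : ∀ x ∈ Icc 1 M, GS np (PM K M) x * gk M k x =
      ∑ D ∈ DM K M, (fS np D)⁻¹ * (Ici (nS np D)).indicator (gk M k) x := by
    intro x hx
    rw [GS_eq hx.2, Finset.sum_mul]
    refine Finset.sum_congr rfl fun D _ => ?_
    by_cases hc : nS np D ≤ x
    · rw [if_pos hc, Set.indicator_of_mem (Set.mem_Ici.2 hc)]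
    · rw [if_neg hc, Set.indicator_of_notMem (fun h => hc (Set.mem_Ici.1 h)), zero_mul, mul_zero]
  have h1 : ∑ D ∈ DM K M, Real.log (M / nS np D) ^ (k + 1) / fS np D =
      ∫ x in Icc 1 M, ∑ D ∈ DM K M, (fS np D)⁻¹ * (Ici (nS np D)).indicator (gk M k) x := by
    rw [integral_finsetSum _ hi]
    refine Finset.sum_congr rfl fun D hD => ?_
    have hD1 := Pool.Agent.H96.CV.one_le_nS D
    have hD2 := (Pool.Agent.H96.CV.mem_DM.1 hD).2
    rw [integral_const_mul, setIntegral_indicator measurableSet_Ici]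
    have hs : Icc (1 : ℝ) M ∩ Ici (nS np D) = Icc (nS np D) M := by
      ext x
      simp only [mem_inter_iff, mem_Icc, mem_Ici]
      constructor
      · rintro ⟨⟨_, h2⟩, h3⟩
        exact ⟨h3, h2⟩
      · rintro ⟨h2, h3⟩
        exact ⟨⟨hD1.trans h2, h3⟩, h2⟩
    rw [hs, int1 hD1 hD2 k, div_eq_inv_mul]
  refine ⟨?_, ?_⟩
  · refine Integrable.congr (integrable_finsetSum _ hi) ?_
    refine (ae_restrict_iff' measurableSet_Icc).2 (Filter.Eventually.of_forall fun x hx => ?_)
    exact (he x hx).symm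
  · rw [h1]
    exact (setIntegral_congr_fun measurableSet_Icc he).symm

theorem pf_MO (h1 : T_GA) : T_MO := by
  intro K _ _ η hη
  obtain ⟨M₀, hM₀, h⟩ := h1 K η hη
  refine ⟨M₀, hM₀, fun M k hM _ => ?_⟩
  have hM1 : 1 ≤ M := by linarith
  have hM0 : 0 < M := by linarith
  have hl : 0 ≤ Real.log M := Real.log_nonneg hM1
  rcases k with _ | k
  · have h2 := h M M hM hM1 le_rfl
    have h3 : ∑ D ∈ DM K M, Real.log (M / nS np D) ^ 0 / fS np D = GS np (PM K M) M := by
      rw [GS]
      refine Finset.sum_congr rfl fun D _ => ?_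
      rw [pow_zero, one_div]
    rw [h3]
    simpa using h2
  · obtain ⟨hi, hs⟩ := sum_eq (K := K) hM1 k
    rw [hs]
    have hc : IntegrableOn (fun x : ℝ => Real.log x * gk M k x) (Icc 1 M) := by
      refine ContinuousOn.integrableOn_Icc ?_
      refine ContinuousOn.mul (ContinuousOn.log continuousOn_id ?_) (gk_cont hM0 le_rfl k)
      intro x hx
      have : 0 < x := by linarith [hx.1]
      exact this.ne'
    have hg : IntegrableOn (gk M k) (Icc 1 M) := (gk_cont hM0 le_rfl k).integrableOn_Icc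
    have h4 : rho K * Real.log M ^ (k + 1 + 1) / ((k + 1 : ℕ) + 1) =
        ∫ x in Icc 1 M, rho K * (Real.log x * gk M k x) := by
      rw [integral_const_mul, int2 hM1 k]
      push_cast
      ring
    rw [h4, ← integral_sub hi (hc.const_mul _)]
    have h5 : η * Real.log M ^ (k + 1 + 1) =
        ∫ x in Icc 1 M, η * Real.log M * gk M k x := by
      rw [integral_const_mul, int1 le_rfl hM1 k, div_one]
      ring
    rw [h5, ← Real.norm_eq_abs]
    refine norm_integral_le_of_norm_le (hg.const_mul _) ?_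
    refine (ae_restrict_iff' measurableSet_Icc).2 (Filter.Eventually.of_forall fun x hx => ?_)
    have h6 := h M x hM hx.1 hx.2
    have h7 := gk_nonneg hx.1 hx.2 k
    have h8 : GS np (PM K M) x * gk M k x - rho K * (Real.log x * gk M k x) =
        (GS np (PM K M) x - rho K * Real.log x) * gk M k x := by ring
    rw [h8, norm_mul, Real.norm_eq_abs, Real.norm_eq_abs, abs_of_nonneg h7]
    exact mul_le_mul_of_nonneg_right h6 h7

end Pool.Agent.H63.CRZ
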