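import Pool.Agent.H65.CRZ.TD

/-!
# The conductor parameter of `q` for an imaginary quadratic field
-/

set_option autoImplicit false

open NumberField NumberField.InfinitePlace

namespace Pool.Agent.H63.CRZ

open Pool.Agent.H28.RC Pool.Agent.H25.HK Pool.Agent.H37.CV Pool.Agent.H65.CRZ

theorem nm_qi (K : Type) [Field K] [NumberField K] (h2 : Module.finrank ℚ K = 2) (q : ℕ) :
    nm (qi K q) = (q : ℝ) ^ 2 := by
  have h := Ideal.absNorm_span_natCast (S := 𝓞 K) q
  rw [RingOfIntegers.rank, h2] at h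
  rw [nm, qi, h]
  push_cast
  rfl

theorem pf_CQ : T_CQ := by
  intro K _ _ _ h2
  refine ⟨?_, Real.sqrt |(discr K : ℝ)| / (2 * Real.pi), ?_, ?_⟩
  · have h := card_add_two_mul_card_eq_rank K
    rw [IsTotallyComplex.nrRealPlaces_eq_zero, h2] at h
    omega
  · have hd : (discr K : ℝ) ≠ 0 := by exact_mod_cast discr_ne_zero K
    have h1 : 0 < Real.sqrt |(discr K : ℝ)| := Real.sqrt_pos.2 (abs_pos.2 hd)
    exact div_pos h1 (by positivity)
  · intro q _
    refine ⟨?_, nm_qi K h2 q⟩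
    rw [cA, cnd, nm_qi K h2 q, Real.sqrt_mul (abs_nonneg _), Real.sqrt_sq (Nat.cast_nonneg q)]
    ring

end Pool.Agent.H63.CRZ
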